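import Pool.Agent.Helper81.LT.Mod

/-!
MP_c20641_lc, packet TSPC: every finite separated `Λ`-valued ultrametric space is coded by
standard numbers.
-/

set_option autoImplicit false

namespace Pool.Agent.Helper90.LT

open Pool.Agent.Helper81.LT

theorem bt_cast {M : Type} [CommSemiring M] [LinearOrder M] [IsStrictOrderedRing M]
    {a b i x : ℕ} (h : Bt a b i x) : Bt (a : M) (b : M) (i : M) (x : M) := by
  obtain ⟨h1, q, hq⟩ := h
  refine ⟨?_, (q : M), ?_⟩
  · have h2 : ((x : ℕ) : M) < ((1 + (i + 1) * b : ℕ) : M) := Nat.cast_lt.2 h1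
    push_cast at h2
    exact h2
  · have h2 : ((a : ℕ) : M) = ((q * (1 + (i + 1) * b) + x : ℕ) : M) := congrArg _ hq
    push_cast at h2
    exact h2

theorem pr_cast {M : Type} [CommSemiring M] [LinearOrder M] (x y : ℕ) :
    ((pr x y : ℕ) : M) = pr (x : M) (y : M) := by
  simp only [pr]
  push_cast
  rfl

/-- the code of a finite space -/
theorem exists_code {Λ : Type} [Lattice Λ] [BoundedOrder Λ] (c : Λ → ℕ) (hβ : BETA)
    (hN : NATPA) (S : Sp Λ) {m : ℕ} (e : S.A ≃ Fin m) :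
    ∃ a b : ℕ, ∀ s s' : S.A, Bt a b ((e s : ℕ) * m + (e s' : ℕ)) (c (S.t s s')) := by
  have : PAM ℕ := hN.1
  obtain ⟨a, b, hab⟩ := hβ ℕ (m * m) (fun k => if h : k / m < m ∧ k % m < m then
    c (S.t (e.symm ⟨k / m, h.1⟩) (e.symm ⟨k % m, h.2⟩)) else 0)
  refine ⟨a, b, fun s s' => ?_⟩
  have hs := (e s).2
  have hs' := (e s').2
  have hm : 0 < m := lt_of_le_of_lt (Nat.zero_le _) hs
  have hk : (e s : ℕ) * m + (e s' : ℕ) < m * m := by
    calc (e s : ℕ) * m + (e s' : ℕ) < (e s : ℕ) * m + m := by omega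
      _ = ((e s : ℕ) + 1) * m := by ring
      _ ≤ m * m := Nat.mul_le_mul_right m hs
  have h1 : ((e s : ℕ) * m + (e s' : ℕ)) / m = (e s : ℕ) := by
    rw [Nat.add_comm, Nat.add_mul_div_right _ _ hm, Nat.div_eq_of_lt hs', Nat.zero_add]
  have h2 : ((e s : ℕ) * m + (e s' : ℕ)) % m = (e s' : ℕ) := by
    rw [Nat.add_comm, Nat.add_mul_mod_self_right, Nat.mod_eq_of_lt hs']
  have h3 := hab _ hk
  rw [Nat.cast_id] at h3
  have h4 : ((e s : ℕ) * m + (e s' : ℕ)) / m < m ∧ ((e s : ℕ) * m + (e s' : ℕ)) % m < m := by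
    rw [h1, h2]; exact ⟨hs, hs'⟩
  simp only [dif_pos h4] at h3
  have h5 : (⟨((e s : ℕ) * m + (e s' : ℕ)) / m, h4.1⟩ : Fin m) = e s := Fin.ext h1
  have h6 : (⟨((e s : ℕ) * m + (e s' : ℕ)) % m, h4.2⟩ : Fin m) = e s' := Fin.ext h2
  rw [h5, h6, e.symm_apply_apply, e.symm_apply_apply] at h3
  exact h3

theorem tspc (h : BTU) (hβ : BETA) (hN : NATPA) : TSPC := by
  intro Λ _ _ c hc M _ _ _ _ S hS
  obtain ⟨hu, hp, hs⟩ := h M
  obtain ⟨m, ⟨e⟩⟩ := Finite.exists_equiv_fin S.A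
  obtain ⟨a, b, hab⟩ := exists_code c hβ hN S e
  have key : ∀ s s' : S.A, Bt (a : M) (b : M) (((e s : ℕ) : M) * (m : M) + ((e s' : ℕ) : M))
      (c (S.t s s') : M) := by
    intro s s'
    have h1 := bt_cast (M := M) (hab s s')
    push_cast at h1
    exact h1
  have hval : ∀ (s s' : S.A) (y : Λ),
      Bt (a : M) (b : M) (((e s : ℕ) : M) * (m : M) + ((e s' : ℕ) : M)) (c y : M) →
      y = S.t s s' := by
    intro s s' y hy
    have h1 := hu _ _ _ _ _ hy (key s s')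
    exact hc (Nat.cast_injective h1)
  have hst : ∀ i : M, i < (m : M) → ∃ s : S.A, i = ((e s : ℕ) : M) := by
    intro i hi
    obtain ⟨k, hk, rfl⟩ := hs m i hi
    exact ⟨e.symm ⟨k, hk⟩, by rw [e.apply_symm_apply]⟩
  have hlt : ∀ s : S.A, ((e s : ℕ) : M) < (m : M) := fun s => Nat.cast_lt.2 (e s).2
  have hf : ∀ s : S.A, ((pr (pr a b) (pr m (e s : ℕ)) : ℕ) : M) =
      pr (pr (a : M) (b : M)) (pr (m : M) ((e s : ℕ) : M)) := by
    intro s
    rw [pr_cast, pr_cast, pr_cast]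
  refine ⟨fun s => pr (pr a b) (pr m (e s : ℕ)), fun s s' x => ?_⟩
  rw [hf, hf]
  constructor
  · rintro (h1 | h1 | ⟨a', b', m', i, j, h1, h2, hi, hj, -, y, hxy, hy⟩)
    · have h2 := (hp _ _ _ _ h1).2
      have h3 := (hp _ _ _ _ h2).2
      have h4 : e s = e s' := Fin.ext (Nat.cast_injective h3)
      have h5 : s = s' := e.injective h4
      subst h5
      rw [S.refl]
      exact le_top
    · rw [h1]
      exact bot_le
    · obtain ⟨h3, h4⟩ := hp _ _ _ _ h1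
      obtain ⟨h5, h6⟩ := hp _ _ _ _ h3
      obtain ⟨h7, h8⟩ := hp _ _ _ _ h4
      obtain ⟨-, h9⟩ := hp _ _ _ _ h2
      obtain ⟨-, h10⟩ := hp _ _ _ _ h9
      subst h5 h6 h7 h8 h10
      rw [← hval s s' y hy]
      exact hxy
  · intro hx
    refine Or.inr (Or.inr ⟨(a : M), (b : M), (m : M), ((e s : ℕ) : M), ((e s' : ℕ) : M), rfl, rfl,
      hlt s, hlt s', ⟨?_, ?_, ?_, ?_, ?_⟩, S.t s s', hx, key s s'⟩)
    · intro i hi j hj
      obtain ⟨p, rfl⟩ := hst i hi
      obtain ⟨q, rfl⟩ := hst j hj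
      exact ⟨S.t p q, key p q⟩
    · intro i hi
      obtain ⟨p, rfl⟩ := hst i hi
      have h1 := key p p
      rw [S.refl] at h1
      exact h1
    · intro i hi j hj hij
      obtain ⟨p, rfl⟩ := hst i hi
      obtain ⟨q, rfl⟩ := hst j hj
      have h1 := hval p q _ hij
      rw [hS p q h1.symm]
    · intro y i hi j hj hij
      obtain ⟨p, rfl⟩ := hst i hi
      obtain ⟨q, rfl⟩ := hst j hj
      have h1 := hval p q _ hij
      rw [h1, S.symm]
      exact key q p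
    · intro x' y z i hi j hj l hl h1 h2 h3
      obtain ⟨p, rfl⟩ := hst i hi
      obtain ⟨q, rfl⟩ := hst j hj
      obtain ⟨r, rfl⟩ := hst l hl
      rw [hval p q _ h1, hval q r _ h2, hval p r _ h3]
      exact S.tri p q r

end Pool.Agent.Helper90.LT
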